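import Mathlib

/-!
# Stabilization entropy and practical stabilization entropy

State space `X` and control space `Y` are normed spaces; a control system is a map
`f : X → Y → X`, the control range is a set `U` in `Y`.
-/

set_option autoImplicit false

open MeasureTheory Filter Topology

namespace Pool.Agent.StabEntropy

/-- `KL`-functions: continuous on `[0,∞)²`, vanishing at `r = 0`, strictly increasing in `r`,
strictly decreasing in `s` (for `r > 0`) and tending to `0` as `s → ∞`. -/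
structure IsKL (ζ : ℝ → ℝ → ℝ) : Prop where
  continuousOn : ContinuousOn (fun p : ℝ × ℝ => ζ p.1 p.2) (Set.Ici 0 ×ˢ Set.Ici 0)
  zero : ∀ s, 0 ≤ s → ζ 0 s = 0
  strictMonoOn : ∀ s, 0 ≤ s → StrictMonoOn (fun r => ζ r s) (Set.Ici 0)
  strictAntiOn : ∀ r, 0 < r → StrictAntiOn (fun s => ζ r s) (Set.Ici 0)
  tendsto : ∀ r, 0 ≤ r → Tendsto (fun s => ζ r s) atTop (𝓝 0)

section Defs

variable {X Y : Type*} [NormedAddCommGroup X] [NormedSpace ℝ X] [NormedAddCommGroup Y]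

/-- Admissible controls: measurable on `[0,∞)` with values in `U` almost everywhere. -/
def Admissible (U : Set Y) (u : ℝ → Y) : Prop :=
  AEStronglyMeasurable u (volume.restrict (Set.Ici 0)) ∧
    ∀ᵐ t ∂(volume.restrict (Set.Ici (0 : ℝ))), u t ∈ U

/-- `x` is a (Caratheodory) solution on `[0,∞)` of `x' = f (x, u)`, `x 0 = x₀`. -/
def IsSolution (f : X → Y → X) (u : ℝ → Y) (x₀ : X) (x : ℝ → X) : Prop :=
  ContinuousOn x (Set.Ici 0) ∧ ∀ t, 0 ≤ t →
    IntervalIntegrable (fun s => f (x s) (u s)) volume 0 t ∧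
      x t = x₀ + ∫ s in (0 : ℝ)..t, f (x s) (u s)

/-- `φ t x₀ u` is, for `t ≥ 0`, the value at time `t` of the unique solution of the control
system `x' = f (x, u)` starting at `x₀`, and it depends continuously on `x₀`. -/
structure IsSolutionMap (f : X → Y → X) (U : Set Y) (φ : ℝ → X → (ℝ → Y) → X) : Prop where
  isSolution : ∀ u, Admissible U u → ∀ x₀, IsSolution f u x₀ (fun t => φ t x₀ u)
  unique : ∀ u, Admissible U u → ∀ x₀ x, IsSolution f u x₀ x → ∀ t, 0 ≤ t → x t = φ t x₀ u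
  continuous : ∀ u, Admissible U u → ∀ t, 0 ≤ t → Continuous (fun x₀ => φ t x₀ u)

variable (U : Set Y) (φ : ℝ → X → (ℝ → Y) → X) (ζ : ℝ → ℝ → ℝ) (Γ Λ : Set X)

/-- The system is stabilizable: every `x₀ ∈ Γ` admits an admissible `u` with
`d(φ(t,x₀,u),Λ) ≤ ζ(d(x₀,Λ),t)` for all `t ≥ 0`. -/
def Stabilizable : Prop :=
  ∀ x₀ ∈ Γ, ∃ u, Admissible U u ∧
    ∀ t, 0 ≤ t → Metric.infDist (φ t x₀ u) Λ ≤ ζ (Metric.infDist x₀ Λ) t

/-- Spanning sets of controls. -/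
def IsSpanning (τ ε : ℝ) (S : Set (ℝ → Y)) : Prop :=
  (∀ u ∈ S, Admissible U u) ∧ ∀ x₀ ∈ Γ, ∃ u ∈ S, ∀ t ∈ Set.Icc 0 τ,
    Metric.infDist (φ t x₀ u) Λ ≤ ζ (Metric.infDist x₀ Λ + ε) t

/-- Practically spanning sets of controls. -/
def IsPracticallySpanning (τ ε : ℝ) (S : Set (ℝ → Y)) : Prop :=
  (∀ u ∈ S, Admissible U u) ∧ ∀ x₀ ∈ Γ, ∃ u ∈ S, ∀ t ∈ Set.Icc 0 τ,
    Metric.infDist (φ t x₀ u) Λ ≤ ζ (Metric.infDist x₀ Λ + ε) t + ε

/-- The minimal cardinality of a spanning set. -/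
noncomputable def rs (τ ε : ℝ) : ℕ∞ :=
  ⨅ (S : Set (ℝ → Y)) (_ : IsSpanning U φ ζ Γ Λ τ ε S), S.encard

/-- The minimal cardinality of a practically spanning set. -/
noncomputable def rps (τ ε : ℝ) : ℕ∞ :=
  ⨅ (S : Set (ℝ → Y)) (_ : IsPracticallySpanning U φ ζ Γ Λ τ ε S), S.encard

/-- `h_s(ε) = limsup_{τ → ∞} (1/τ) log r_s(τ, ε)`. -/
noncomputable def hs (ε : ℝ) : EReal :=
  limsup (fun τ : ℝ => ((1 / τ : ℝ) : EReal) * ENNReal.log (rs U φ ζ Γ Λ τ ε : ENNReal)) atTop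

/-- `h_ps(ε) = limsup_{τ → ∞} (1/τ) log r_ps(τ, ε)`. -/
noncomputable def hps (ε : ℝ) : EReal :=
  limsup (fun τ : ℝ => ((1 / τ : ℝ) : EReal) * ENNReal.log (rps U φ ζ Γ Λ τ ε : ENNReal)) atTop

end Defs

end Pool.Agent.StabEntropy
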