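import Pool.Agent.Lib.MP_395e41_an.Exist

/-!
# The drift with tiny stable windows
-/

set_option autoImplicit false

open MeasureTheory Filter Topology Set

namespace Pool.Agent.StabEntropy

/-- The centers of the windows. -/
noncomputable def xc (k : ℕ) : ℝ := (1 / 2) ^ (k + 1)

lemma xc_pos (k : ℕ) : 0 < xc k := by unfold xc; positivity

lemma xc_le (k : ℕ) : xc k ≤ 1 / 2 := by
  unfold xc
  rw [pow_succ]
  have : (1 / 2 : ℝ) ^ k ≤ 1 := pow_le_one₀ (by norm_num) (by norm_num)
  linarith

lemma xc_succ (k : ℕ) : xc (k + 1) = xc k / 2 := by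
  unfold xc
  rw [pow_succ _ (k + 1)]
  ring

lemma xc_anti {j k : ℕ} (h : j ≤ k) : xc k ≤ xc j := by
  unfold xc
  exact pow_le_pow_of_le_one (by norm_num) (by norm_num) (by omega)

/-- The union of the windows. -/
def W (δ : ℕ → ℝ) : Set ℝ := ⋃ k, Icc (xc k - δ k) (xc k + δ k)

lemma measurableSet_W (δ : ℕ → ℝ) : MeasurableSet (W δ) :=
  MeasurableSet.iUnion fun _ => measurableSet_Icc

open Classical in
/-- The slope of the drift. -/
noncomputable def rho (δ : ℕ → ℝ) (s : ℝ) : ℝ :=
  if s ∈ W δ then -1 else if s ∈ Icc (-1 : ℝ) 1 then 1 else 0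

lemma measurable_rho (δ : ℕ → ℝ) : Measurable (rho δ) :=
  Measurable.ite (measurableSet_W δ) measurable_const
    (Measurable.ite measurableSet_Icc measurable_const measurable_const)

lemma abs_rho_le (δ : ℕ → ℝ) (s : ℝ) : |rho δ s| ≤ 1 := by
  unfold rho
  split_ifs <;> norm_num

lemma intervalIntegrable_rho (δ : ℕ → ℝ) (a b : ℝ) :
    IntervalIntegrable (rho δ) volume a b := by
  rw [intervalIntegrable_iff]
  refine IntegrableOn.of_bound (by simp [uIoc]) (measurable_rho δ).aestronglyMeasurable 1 ?_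
  exact Eventually.of_forall fun s => by rw [Real.norm_eq_abs]; exact abs_rho_le δ s

/-- The normalized drift. -/
noncomputable def g1 (δ : ℕ → ℝ) (x : ℝ) : ℝ := ∫ s in (0 : ℝ)..x, rho δ s

lemma g1_sub (δ : ℕ → ℝ) (a b : ℝ) : g1 δ a - g1 δ b = ∫ s in b..a, rho δ s :=
  intervalIntegral.integral_interval_sub_left (intervalIntegrable_rho δ 0 a)
    (intervalIntegrable_rho δ 0 b)

lemma g1_lip (δ : ℕ → ℝ) (a b : ℝ) : |g1 δ a - g1 δ b| ≤ |a - b| := by
  rw [g1_sub]
  have := intervalIntegral.norm_integral_le_of_norm_le_const (a := b) (b := a) (f := rho δ)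
    (C := 1) (fun s _ => by rw [Real.norm_eq_abs]; exact abs_rho_le δ s)
  rw [Real.norm_eq_abs, one_mul] at this
  exact this

lemma W_subset {δ : ℕ → ℝ} (hδ : ∀ k, δ k ≤ xc k / 4) : W δ ⊆ Icc (-1) 1 := by
  intro s hs
  obtain ⟨k, hk⟩ := mem_iUnion.1 hs
  have h1 := hδ k
  have h2 := xc_pos k
  have h3 := xc_le k
  exact ⟨by linarith [hk.1], by linarith [hk.2]⟩

lemma rho_eq_zero {δ : ℕ → ℝ} (hδ : ∀ k, δ k ≤ xc k / 4) {s : ℝ} (hs : s ∉ Icc (-1 : ℝ) 1) :
    rho δ s = 0 := by
  unfold rho
  rw [if_neg (fun h => hs (W_subset hδ h)), if_neg hs]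

lemma g1_bound {δ : ℕ → ℝ} (hδ : ∀ k, δ k ≤ xc k / 4) (x : ℝ) : |g1 δ x| ≤ 1 := by
  have h0 : g1 δ 0 = 0 := by simp [g1]
  rcases le_or_gt |x| 1 with h | h
  · have := g1_lip δ x 0
    rw [h0, sub_zero, sub_zero] at this
    exact this.trans h
  · rcases le_total 0 x with hx | hx
    · rw [abs_of_nonneg hx] at h
      have h1 : g1 δ x - g1 δ 1 = 0 := by
        rw [g1_sub]
        have : ∫ s in (1 : ℝ)..x, rho δ s = ∫ s in (1 : ℝ)..x, (0 : ℝ) := by
          refine intervalIntegral.integral_congr_ae ?_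
          refine Eventually.of_forall fun s hs => ?_
          rw [uIoc_of_le h.le] at hs
          exact rho_eq_zero hδ fun h' => absurd h'.2 (not_le.2 hs.1)
        rw [this]
        simp
      have h2 := g1_lip δ 1 0
      rw [h0, sub_zero, sub_zero, abs_one] at h2
      have : g1 δ x = g1 δ 1 := by linarith
      rw [this]
      exact h2
    · rw [abs_of_nonpos hx] at h
      have h1 : g1 δ (-1) - g1 δ x = 0 := by
        rw [g1_sub]
        have : ∫ s in x..(-1 : ℝ), rho δ s = ∫ s in x..(-1 : ℝ), (0 : ℝ) := by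
          refine intervalIntegral.integral_congr_Ioo_of_le (by linarith) fun s hs => ?_
          exact rho_eq_zero hδ fun h' => absurd h'.1 (not_le.2 hs.2)
        rw [this]
        simp
      have h2 := g1_lip δ (-1) 0
      rw [h0, sub_zero, sub_zero, abs_neg, abs_one] at h2
      have : g1 δ x = g1 δ (-1) := by linarith
      rw [this]
      exact h2

/-- The drift in a window. -/
lemma g1_window {δ : ℕ → ℝ} (k : ℕ) {x : ℝ} (hx : |x - xc k| ≤ δ k) :
    g1 δ x = g1 δ (xc k) - (x - xc k) := by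
  have hδ : 0 ≤ δ k := (abs_nonneg _).trans hx
  have h1 : g1 δ x - g1 δ (xc k) = ∫ s in (xc k)..x, (-1 : ℝ) := by
    rw [g1_sub]
    refine intervalIntegral.integral_congr fun s hs => ?_
    have hs2 : s ∈ Icc (xc k - δ k) (xc k + δ k) := by
      have hx2 := abs_le.1 hx
      have : uIcc (xc k) x ⊆ Icc (xc k - δ k) (xc k + δ k) :=
        uIcc_subset_Icc ⟨by linarith, by linarith⟩ ⟨by linarith [hx2.1], by linarith [hx2.2]⟩
      exact this hs
    have hsW : s ∈ W δ := mem_iUnion.2 ⟨k, hs2⟩
    unfold rho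
    rw [if_pos hsW]
  rw [intervalIntegral.integral_const, smul_eq_mul] at h1
  linarith

/-- The measure of the part of `W` in an interval. -/
lemma volume_W_le {δ : ℕ → ℝ} {a M : ℝ} (hM : 0 ≤ M)
    (h : ∀ k, volume (Icc (xc k - δ k) (xc k + δ k) ∩ Icc (-a) a)
      ≤ ENNReal.ofReal (M / 4 * (1 / 2) ^ k)) :
    volume (W δ ∩ Icc (-a) a) ≤ ENNReal.ofReal (M / 2) := by
  have h1 : W δ ∩ Icc (-a) a = ⋃ k, (Icc (xc k - δ k) (xc k + δ k) ∩ Icc (-a) a) := by
    unfold W
    rw [iUnion_inter]
  rw [h1]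
  refine (measure_iUnion_le _).trans ((ENNReal.tsum_le_tsum h).trans ?_)
  have hs : Summable (fun k : ℕ => M / 4 * (1 / 2 : ℝ) ^ k) :=
    (summable_geometric_of_lt_one (by norm_num) (by norm_num)).mul_left _
  rw [← ENNReal.ofReal_tsum_of_nonneg (fun k => by positivity) hs, tsum_mul_left,
    tsum_geometric_of_lt_one (by norm_num) (by norm_num)]
  apply ENNReal.ofReal_le_ofReal
  norm_num
  linarith

/-- Near the origin the drift is almost expanding. -/
lemma g1_expand {δ : ℕ → ℝ} {a M : ℝ} (ha : a ≤ 1) (hM : 0 ≤ M)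
    (h : ∀ k, volume (Icc (xc k - δ k) (xc k + δ k) ∩ Icc (-a) a)
      ≤ ENNReal.ofReal (M / 4 * (1 / 2) ^ k)) {p q : ℝ} (hp : |p| ≤ a) (hq : |q| ≤ a) :
    p - q - M ≤ g1 δ p - g1 δ q := by
  rcases le_total q p with hqp | hpq
  · have hp' := abs_le.1 hp
    have hq' := abs_le.1 hq
    have hsub : Icc q p ⊆ Icc (-a) a := Icc_subset_Icc hq'.1 hp'.2
    have hW : MeasurableSet (W δ ∩ Icc q p) := (measurableSet_W δ).inter measurableSet_Icc
    have hvol : volume (W δ ∩ Icc q p) ≤ ENNReal.ofReal (M / 2) :=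
      (measure_mono (inter_subset_inter_right _ hsub)).trans (volume_W_le hM h)
    have hreal : (volume (W δ ∩ Icc q p)).toReal ≤ M / 2 :=
      ENNReal.toReal_le_of_le_ofReal (by linarith) hvol
    rw [g1_sub]
    -- compare with `1 - 2 * indicator`
    have hind : ∫ s in q..p, (W δ ∩ Icc q p).indicator (fun _ => (1 : ℝ)) s
        = (volume (W δ ∩ Icc q p)).toReal := by
      rw [intervalIntegral.integral_of_le hqp, integral_indicator_const _ hW, smul_eq_mul,
        mul_one, Measure.real, Measure.restrict_apply hW]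
      congr 1
      apply le_antisymm
      · exact measure_mono inter_subset_left
      · have h1 : W δ ∩ Icc q p ⊆ (W δ ∩ Icc q p ∩ Ioc q p) ∪ {q} := by
          intro s hs
          rcases eq_or_lt_of_le hs.2.1 with h2 | h2
          · right; exact h2.symm
          · left; exact ⟨hs, h2, hs.2.2⟩
        refine (measure_mono h1).trans ((measure_union_le _ _).trans ?_)
        simp
    have hint : IntervalIntegrable ((W δ ∩ Icc q p).indicator (fun _ => (1 : ℝ))) volume q p := by
      rw [intervalIntegrable_iff]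
      refine IntegrableOn.of_bound (by simp [uIoc])
        ((measurable_const.indicator hW).aestronglyMeasurable) 1 ?_
      refine Eventually.of_forall fun s => ?_
      rw [Real.norm_eq_abs]
      unfold indicator
      split_ifs <;> norm_num
    have heq : ∫ s in q..p, rho δ s
        = ∫ s in q..p, ((1 : ℝ) - 2 * (W δ ∩ Icc q p).indicator (fun _ => (1 : ℝ)) s) := by
      refine intervalIntegral.integral_congr fun s hs => ?_
      rw [uIcc_of_le hqp] at hs
      have hs1 : s ∈ Icc (-1 : ℝ) 1 := by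
        have := hsub hs
        exact ⟨by linarith [this.1], by linarith [this.2]⟩
      unfold rho
      by_cases hsW : s ∈ W δ
      · have hmem : s ∈ W δ ∩ Icc q p := ⟨hsW, hs⟩
        rw [if_pos hsW, indicator_of_mem hmem]
        norm_num
      · rw [if_neg hsW, if_pos hs1, indicator_of_notMem (fun h' => hsW h'.1)]
        norm_num
    rw [heq, intervalIntegral.integral_sub (by simp) (hint.const_mul 2),
      intervalIntegral.integral_const_mul, hind, intervalIntegral.integral_const, smul_eq_mul,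
      mul_one]
    linarith
  · have := g1_lip δ p q
    rw [abs_of_nonpos (a := p - q) (by linarith)] at this
    have h2 := neg_abs_le (g1 δ p - g1 δ q)
    linarith

end Pool.Agent.StabEntropy
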