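import Pool.Agent.Lib.MP_395e41_an.Ode

/-!
# Global existence for `x' = g x + u` with `g` bounded and Lipschitz
-/

set_option autoImplicit false

open MeasureTheory Filter Topology Set

namespace Pool.Agent.StabEntropy

lemma exists_on {L C : ℝ} {g : ℝ → ℝ} (hg : Lip L g) (hC : ∀ x, |g x| ≤ C) {V : ℝ → ℝ}
    (hV : Continuous V) (x₀ : ℝ) {T : ℝ} (hT : 0 ≤ T) :
    ∃ α : ℝ → ℝ, α 0 = x₀ ∧
      ∀ t ∈ Icc 0 T, HasDerivWithinAt α (g (α t + V t)) (Icc 0 T) t := by
  have hC0 : 0 ≤ C := (abs_nonneg _).trans (hC 0)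
  have hPL : IsPicardLindelof (fun t y => g (y + V t)) (tmin := 0) (tmax := T)
      ⟨0, left_mem_Icc.2 hT⟩ x₀ (C * T).toNNReal 0 C.toNNReal L.toNNReal := by
    refine ⟨?_, ?_, ?_, ?_⟩
    · intro t _
      refine LipschitzWith.lipschitzOnWith ?_
      refine LipschitzWith.of_dist_le' fun a b => ?_
      rw [Real.dist_eq, Real.dist_eq]
      have := hg (a + V t) (b + V t)
      simpa using this
    · intro y _
      exact (hg.continuous.comp (continuous_const.add hV)).continuousOn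
    · intro t _ y _
      rw [Real.norm_eq_abs, Real.coe_toNNReal _ hC0]
      exact hC _
    · simp only [sub_zero, sub_self, max_eq_left hT, NNReal.coe_zero]
      rw [Real.coe_toNNReal _ hC0, Real.coe_toNNReal _ (mul_nonneg hC0 hT)]
  obtain ⟨α, h1, h2⟩ := hPL.exists_eq_forall_mem_Icc_hasDerivWithinAt₀
  exact ⟨α, h1, h2⟩

lemma unique_on {L : ℝ} {g : ℝ → ℝ} (hg : Lip L g) {V : ℝ → ℝ} {T T' : ℝ}
    (hTT : T ≤ T') {α β : ℝ → ℝ} (h0 : α 0 = β 0)
    (hα : ∀ t ∈ Icc 0 T, HasDerivWithinAt α (g (α t + V t)) (Icc 0 T) t)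
    (hβ : ∀ t ∈ Icc 0 T', HasDerivWithinAt β (g (β t + V t)) (Icc 0 T') t) :
    ∀ t ∈ Icc 0 T, α t = β t := by
  have hmem : ∀ t ∈ Ico (0 : ℝ) T, Icc 0 T ∈ 𝓝[Ici t] t := fun t ht =>
    mem_nhdsWithin.2 ⟨Iio T, isOpen_Iio, ht.2, fun s hs => ⟨ht.1.trans hs.2, hs.1.le⟩⟩
  have hmem' : ∀ t ∈ Ico (0 : ℝ) T, Icc 0 T' ∈ 𝓝[Ici t] t := fun t ht =>
    mem_nhdsWithin.2 ⟨Iio T, isOpen_Iio, ht.2, fun s hs => ⟨ht.1.trans hs.2, hs.1.le.trans hTT⟩⟩
  have := ODE_solution_unique_of_mem_Icc_right (v := fun t y => g (y + V t)) (K := L.toNNReal)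
    (s := fun _ => univ) (a := 0) (b := T) (f := α) (g := β)
    (fun t _ => LipschitzWith.lipschitzOnWith (LipschitzWith.of_dist_le' fun a b => by
      rw [Real.dist_eq, Real.dist_eq]
      have := hg (a + V t) (b + V t)
      simpa using this))
    (fun t ht => (hα t ht).continuousWithinAt)
    (fun t ht => (hα t ⟨ht.1, ht.2.le⟩).mono_of_mem_nhdsWithin (hmem t ht))
    (fun _ _ => trivial)
    (fun t ht => ((hβ t ⟨ht.1, ht.2.trans hTT⟩).continuousWithinAt).mono
      (Icc_subset_Icc_right hTT))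
    (fun t ht => (hβ t ⟨ht.1, ht.2.le.trans hTT⟩).mono_of_mem_nhdsWithin (hmem' t ht))
    (fun _ _ => trivial) h0
  exact this

lemma exists_global {L C : ℝ} {g : ℝ → ℝ} (hg : Lip L g) (hC : ∀ x, |g x| ≤ C) {V : ℝ → ℝ}
    (hV : Continuous V) (x₀ : ℝ) :
    ∃ y : ℝ → ℝ, ContinuousOn y (Ici 0) ∧
      ∀ t, 0 ≤ t → y t = x₀ + ∫ s in (0 : ℝ)..t, g (y s + V s) := by
  choose α hα0 hα using fun n : ℕ => exists_on hg hC hV x₀ (Nat.cast_nonneg (α := ℝ) n)
  have huniq : ∀ n m : ℕ, n ≤ m → ∀ t ∈ Icc (0 : ℝ) n, α n t = α m t := by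
    intro n m hnm
    exact unique_on hg (Nat.cast_le.2 hnm) (by rw [hα0, hα0]) (hα n) (hα m)
  set y : ℝ → ℝ := fun t => α (⌈t⌉₊ + 1) t with hy
  have hy1 : ∀ n : ℕ, ∀ t ∈ Icc (0 : ℝ) n, y t = α n t := by
    intro n t ht
    have h1 : ⌈t⌉₊ ≤ n := Nat.ceil_le.2 ht.2
    have h2 : t ∈ Icc (0 : ℝ) (⌈t⌉₊ : ℕ) := ⟨ht.1, Nat.le_ceil t⟩
    simp only [hy]
    rw [← huniq ⌈t⌉₊ (⌈t⌉₊ + 1) (Nat.le_succ _) t h2, huniq ⌈t⌉₊ n h1 t h2]
  have hcont : ∀ n : ℕ, ContinuousOn y (Icc (0 : ℝ) n) := by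
    intro n
    refine ContinuousOn.congr (fun t ht => (hα n t ht).continuousWithinAt) (hy1 n)
  have hcont2 : ContinuousOn y (Ici 0) := by
    intro t ht
    obtain ⟨n, hn⟩ := exists_nat_gt t
    have h1 := hcont n t ⟨ht, hn.le⟩
    refine h1.mono_of_mem_nhdsWithin ?_
    exact mem_nhdsWithin.2 ⟨Iio n, isOpen_Iio, hn, fun s hs => ⟨hs.2, hs.1.le⟩⟩
  refine ⟨y, hcont2, fun t ht => ?_⟩
  obtain ⟨n, hn⟩ := exists_nat_ge t
  have h1 : ContinuousOn (fun s => g (y s + V s)) (Icc 0 t) :=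
    hg.continuous.comp_continuousOn ((hcont2.mono Icc_subset_Ici_self).add hV.continuousOn)
  have h2 := intervalIntegral.integral_eq_sub_of_hasDeriv_right_of_le ht
    (f := y) (f' := fun s => g (y s + V s)) (hcont2.mono Icc_subset_Ici_self) (by
      intro s hs
      have hs' : s ∈ Icc (0 : ℝ) n := ⟨hs.1.le, hs.2.le.trans hn⟩
      have h3 := hα n s hs'
      rw [← hy1 n s hs'] at h3
      have h4 : HasDerivWithinAt y (g (y s + V s)) (Icc 0 n) s :=
        h3.congr (fun r hr => hy1 n r hr) (hy1 n s hs')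
      refine h4.mono_of_mem_nhdsWithin ?_
      exact mem_nhdsWithin.2 ⟨Iio n, isOpen_Iio, hs.2.trans_le hn,
        fun r hr => ⟨hs.1.le.trans (le_of_lt hr.2), hr.1.le⟩⟩)
    (h1.intervalIntegrable_of_Icc ht)
  have h5 : y 0 = x₀ := by
    rw [hy1 0 0 ⟨le_rfl, by simp⟩, hα0]
  rw [h2, h5]
  ring

lemma Admissible.intervalIntegrable {B : ℝ} {u : ℝ → ℝ} (hu : Admissible (Icc (-B) B) u)
    {s t : ℝ} (hs : 0 ≤ s) (ht : 0 ≤ t) : IntervalIntegrable u volume s t := by
  rw [intervalIntegrable_iff]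
  have hsub : uIoc s t ⊆ Ici 0 := by
    intro r hr
    rw [mem_uIoc] at hr
    rw [mem_Ici]
    rcases hr with hr | hr
    · linarith [hr.1]
    · linarith [hr.1]
  have hle : (volume.restrict (uIoc s t) : Measure ℝ) ≤ volume.restrict (Ici 0) :=
    Measure.restrict_mono hsub le_rfl
  refine IntegrableOn.of_bound (by simp [uIoc]) (hu.1.mono_measure hle) B ?_
  have := ae_mono hle hu.2
  filter_upwards [this] with r hr
  rw [Real.norm_eq_abs]
  exact abs_le.2 hr

theorem exists_solution {L C B : ℝ} {g : ℝ → ℝ} (hg : Lip L g) (hC : ∀ x, |g x| ≤ C)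
    {u : ℝ → ℝ} (hu : Admissible (Icc (-B) B) u) (x₀ : ℝ) :
    ∃ x : ℝ → ℝ, IsSolution (fun x u => g x + u) u x₀ x := by
  set v : ℝ → ℝ := (Ici (0 : ℝ)).indicator u with hv
  have hvi : ∀ s t : ℝ, IntervalIntegrable v volume s t := by
    have h1 : ∀ t, IntervalIntegrable v volume 0 t := by
      intro t
      rcases le_total 0 t with ht | ht
      · have := hu.intervalIntegrable le_rfl ht
        refine this.congr ?_
        rw [uIoc_of_le ht]
        intro s hs
        simp only [hv]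
        rw [indicator_of_mem (mem_Ici.2 hs.1.le)]
      · have : IntervalIntegrable (fun _ : ℝ => (0 : ℝ)) volume 0 t := by simp
        refine this.congr_ae ?_
        rw [uIoc_of_ge ht, EventuallyEq, ae_restrict_iff' measurableSet_Ioc]
        have h0 : ∀ᵐ s : ℝ, s ≠ 0 := by
          simp [ae_iff]
        filter_upwards [h0] with s hs0 hs
        have : s < 0 := lt_of_le_of_ne hs.2 hs0
        simp only [hv]
        rw [indicator_of_notMem (by simpa using this)]
    intro s t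
    exact (h1 s).symm.trans (h1 t)
  have hV : Continuous (fun t => ∫ s in (0 : ℝ)..t, v s) :=
    intervalIntegral.continuous_primitive hvi 0
  obtain ⟨y, hy1, hy2⟩ := exists_global hg hC hV x₀
  refine ⟨fun t => y t + ∫ s in (0 : ℝ)..t, v s, hy1.add hV.continuousOn, fun t ht => ?_⟩
  have hc : ContinuousOn (fun s => g (y s + ∫ r in (0 : ℝ)..s, v r)) (Icc 0 t) :=
    hg.continuous.comp_continuousOn ((hy1.mono Icc_subset_Ici_self).add hV.continuousOn)
  have hi1 := hc.intervalIntegrable_of_Icc (μ := volume) ht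
  have hi2 := hu.intervalIntegrable le_rfl ht
  refine ⟨hi1.add hi2, ?_⟩
  have h1 := intervalIntegral.integral_add hi1 hi2
  have h2 : ∫ s in (0 : ℝ)..t, v s = ∫ s in (0 : ℝ)..t, u s := by
    refine intervalIntegral.integral_congr fun s hs => ?_
    rw [uIcc_of_le ht] at hs
    simp only [hv]
    rw [indicator_of_mem (mem_Ici.2 hs.1)]
  simp only at h1 ⊢
  rw [h1, hy2 t ht, h2]
  ring

open Classical in
/-- The solution map. -/
noncomputable def phi (g : ℝ → ℝ) (t x₀ : ℝ) (u : ℝ → ℝ) : ℝ :=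
  if h : ∃ x : ℝ → ℝ, IsSolution (fun x u => g x + u) u x₀ x then h.choose t else 0

theorem isSolution_phi {L C B : ℝ} {g : ℝ → ℝ} (hg : Lip L g) (hC : ∀ x, |g x| ≤ C)
    {u : ℝ → ℝ} (hu : Admissible (Icc (-B) B) u) (x₀ : ℝ) :
    IsSolution (fun x u => g x + u) u x₀ (fun t => phi g t x₀ u) := by
  have h := exists_solution hg hC hu x₀
  have h2 := h.choose_spec
  have h3 : (fun t => phi g t x₀ u) = h.choose := by
    funext t
    unfold phi
    rw [dif_pos h]
  rw [h3]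
  exact h2

theorem isSolutionMap_phi {L C B : ℝ} {g : ℝ → ℝ} (hg : Lip L g) (hC : ∀ x, |g x| ≤ C) :
    IsSolutionMap (fun x u => g x + u) (Icc (-B) B) (phi g) where
  isSolution u hu x₀ := isSolution_phi hg hC hu x₀
  unique u hu x₀ x hx t ht := unique_solution hg hx (isSolution_phi hg hC hu x₀) ht
  continuous u hu t ht := by
    have h : LipschitzWith (Real.exp (L * (t - 0))).toNNReal (fun x₀ => phi g t x₀ u) := by
      refine LipschitzWith.of_dist_le' fun a b => ?_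
      rw [Real.dist_eq, Real.dist_eq]
      have h1 := upper_exp hg (isSolution_phi hg hC hu a) (isSolution_phi hg hC hu b) le_rfl ht
      have h2 : phi g 0 a u = a := by
        have := ((isSolution_phi hg hC hu a).2 0 le_rfl).2
        simpa using this
      have h3 : phi g 0 b u = b := by
        have := ((isSolution_phi hg hC hu b).2 0 le_rfl).2
        simpa using this
      simp only [h2, h3] at h1
      exact h1
    exact h.continuous

end Pool.Agent.StabEntropy
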