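import Pool.Agent.Lib.MP_395e41_an.Drift

/-!
# The lower bound for the stabilization entropy
-/

set_option autoImplicit false

open MeasureTheory Filter Topology Set

namespace Pool.Agent.StabEntropy

/-- A set of controls in which every control serves only nearby points is large. -/
lemma le_encard_of_separated {S : Set (ℝ → ℝ)} {η : ℝ} (hη : 0 < η) (P : ℝ → (ℝ → ℝ) → Prop)
    (h : ∀ x₀ ∈ Icc (-1 : ℝ) 1, ∃ u ∈ S, P x₀ u)
    (hsep : ∀ x₀ ∈ Icc (-1 : ℝ) 1, ∀ y₀ ∈ Icc (-1 : ℝ) 1, ∀ u ∈ S, P x₀ u → P y₀ u →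
      |x₀ - y₀| ≤ η) :
    ENNReal.ofReal (2 / η) ≤ ((S.encard : ℕ∞) : ENNReal) := by
  rcases S.finite_or_infinite with hfin | hinf
  · have hne : S.Nonempty := by
      obtain ⟨u, hu, _⟩ := h 0 ⟨by norm_num, by norm_num⟩
      exact ⟨u, hu⟩
    have hn : 0 < S.ncard := (ncard_pos hfin).2 hne
    set n := S.ncard with hnS
    have hn' : (0 : ℝ) < n := Nat.cast_pos.2 hn
    set p : ℕ → ℝ := fun i => -1 + 2 * i / n with hp
    have hpmem : ∀ i, i ≤ n → p i ∈ Icc (-1 : ℝ) 1 := by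
      intro i hi
      have hi' : (i : ℝ) ≤ n := Nat.cast_le.2 hi
      constructor
      · simp only [hp]
        have : 0 ≤ 2 * (i : ℝ) / n := by positivity
        linarith
      · simp only [hp]
        have : 2 * (i : ℝ) / n ≤ 2 := by
          rw [div_le_iff₀ hn']
          linarith
        linarith
    choose! f hf1 hf2 using h
    obtain ⟨i, hi, j, hj, hij, hfij⟩ := Finset.exists_ne_map_eq_of_card_lt_of_maps_to
      (s := Finset.range (n + 1)) (t := hfin.toFinset) (f := fun i => f (p i)) (by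
        rw [Finset.card_range, ← ncard_eq_toFinset_card S hfin]
        exact Nat.lt_succ_self _) (by
        intro i hi
        rw [Finset.mem_coe, Finset.mem_range] at hi
        rw [Finset.mem_coe, Finite.mem_toFinset]
        exact hf1 _ (hpmem i (by omega)))
    rw [Finset.mem_range] at hi hj
    have hpi := hpmem i (by omega)
    have hpj := hpmem j (by omega)
    have h1 := hsep (p i) hpi (p j) hpj (f (p i)) (hf1 _ hpi) (hf2 _ hpi)
      (by rw [hfij]; exact hf2 _ hpj)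
    have h2 : 2 / (n : ℝ) ≤ |p i - p j| := by
      have h3 : p i - p j = 2 / n * ((i : ℝ) - j) := by
        simp only [hp]
        ring
      rw [h3, abs_mul, abs_of_pos (by positivity)]
      have h4 : (1 : ℝ) ≤ |(i : ℝ) - j| := by
        have h5 : (1 : ℤ) ≤ |(i : ℤ) - j| := by
          apply Int.one_le_abs
          omega
        have h6 : ((1 : ℤ) : ℝ) ≤ ((|(i : ℤ) - j| : ℤ) : ℝ) := Int.cast_le.2 h5
        push_cast at h6
        exact h6
      have h7 : 0 < 2 / (n : ℝ) := by positivity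
      nlinarith
    have h8 : 2 / η ≤ n := by
      have := h2.trans h1
      rw [div_le_iff₀ hn'] at this
      rw [div_le_iff₀ hη]
      linarith
    have h9 : ((S.encard : ℕ∞) : ENNReal) = ((n : ℕ) : ENNReal) := by
      rw [← hfin.cast_ncard_eq]
      rfl
    rw [h9, ← ENNReal.ofReal_natCast]
    exact ENNReal.ofReal_le_ofReal h8
  · rw [hinf.encard_eq]
    simp

/-- Two initial values served by one control are close to each other. -/
lemma sep_bound {L B M a T τ : ℝ} (hL : 0 < L) {δ : ℕ → ℝ} (hδ : ∀ k, δ k ≤ xc k / 4)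
    (ha1 : a ≤ 1) (hM : 0 ≤ M)
    (hvol : ∀ k, volume (Icc (xc k - δ k) (xc k + δ k) ∩ Icc (-a) a)
      ≤ ENNReal.ofReal (M / 4 * (1 / 2) ^ k))
    (hT : 0 ≤ T) (hTτ : T ≤ τ) {u : ℝ → ℝ} (hu : Admissible (Icc (-B) B) u) {x₀ y₀ : ℝ}
    (hx : ∀ t ∈ Icc T τ, |phi (fun x => L * g1 δ x) t x₀ u| ≤ a)
    (hy : ∀ t ∈ Icc T τ, |phi (fun x => L * g1 δ x) t y₀ u| ≤ a) :
    |x₀ - y₀| ≤ Real.exp (L * T) * (M + Real.exp (-(L * (τ - T))) * (2 * a)) := by
  set g : ℝ → ℝ := fun x => L * g1 δ x with hg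
  have hlip : Lip L g := by
    intro p q
    simp only [hg]
    rw [← mul_sub, abs_mul, abs_of_pos hL]
    exact mul_le_mul_of_nonneg_left (g1_lip δ p q) hL.le
  have hC : ∀ x, |g x| ≤ L := by
    intro x
    simp only [hg]
    rw [abs_mul, abs_of_pos hL]
    have := mul_le_mul_of_nonneg_left (g1_bound hδ x) hL.le
    linarith
  have hexp : ∀ p q, |p| ≤ a → |q| ≤ a → L * (p - q - M) ≤ g p - g q := by
    intro p q hp hq
    simp only [hg]
    rw [← mul_sub]
    exact mul_le_mul_of_nonneg_left (g1_expand ha1 hM hvol hp hq) hL.le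
  have sx := isSolution_phi hlip hC hu x₀
  have sy := isSolution_phi hlip hC hu y₀
  have hx0 : phi g 0 x₀ u = x₀ := by
    have := (sx.2 0 le_rfl).2
    simpa using this
  have hy0 : phi g 0 y₀ u = y₀ := by
    have := (sy.2 0 le_rfl).2
    simpa using this
  have h1 := lower_exp hlip sx sy le_rfl hT
  simp only [hx0, hy0, sub_zero] at h1
  have h2 := lower_kappa hlip sx sy hT hTτ hM hexp hx hy
  have h3 := lower_kappa hlip sy sx hT hTτ hM hexp hy hx
  have hτ : τ ∈ Icc T τ := ⟨hTτ, le_rfl⟩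
  have h4 := abs_le.1 (hx τ hτ)
  have h5 := abs_le.1 (hy τ hτ)
  have h6 : |phi g T x₀ u - phi g T y₀ u| ≤ M + Real.exp (-(L * (τ - T))) * (2 * a) := by
    have h7 : Real.exp (-(L * (τ - T))) * (phi g τ x₀ u - phi g τ y₀ u)
        ≤ Real.exp (-(L * (τ - T))) * (2 * a) :=
      mul_le_mul_of_nonneg_left (by linarith) (Real.exp_pos _).le
    have h8 : Real.exp (-(L * (τ - T))) * (phi g τ y₀ u - phi g τ x₀ u)
        ≤ Real.exp (-(L * (τ - T))) * (2 * a) :=
      mul_le_mul_of_nonneg_left (by linarith) (Real.exp_pos _).le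
    rw [abs_le]
    constructor
    · linarith
    · linarith
  exact h1.trans (mul_le_mul_of_nonneg_left h6 (Real.exp_pos _).le)

/-- The data attached to a decay function `ζ 2`. -/
structure Params (L : ℝ) (ζ : ℝ → ℝ → ℝ) where
  /-- the times after which the windows up to `K` are out of reach -/
  T : ℕ → ℝ
  T_nonneg : ∀ K, 0 ≤ T K
  T_spec : ∀ K t, T K ≤ t → ζ 2 t ≤ xc (K + 1)

lemma exists_params (L : ℝ) {ζ : ℝ → ℝ → ℝ} (hζ : IsKL ζ) : Nonempty (Params L ζ) := by
  have h : ∀ K : ℕ, ∃ T : ℝ, 0 ≤ T ∧ ∀ t, T ≤ t → ζ 2 t ≤ xc (K + 1) := by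
    intro K
    have h1 := (hζ.tendsto 2 (by norm_num)).eventually (ge_mem_nhds (xc_pos (K + 1)))
    obtain ⟨T, hT⟩ := eventually_atTop.1 h1
    exact ⟨max T 0, le_max_right _ _, fun t ht => hT t ((le_max_left _ _).trans ht)⟩
  choose T h1 h2 using h
  exact ⟨⟨T, h1, h2⟩⟩

namespace Params

variable {L : ℝ} {ζ : ℝ → ℝ → ℝ} (P : Params L ζ)

/-- The observation times. -/
noncomputable def tau (K : ℕ) : ℝ := (K + 1) * (2 * P.T K + 1)

lemma tau_pos (K : ℕ) : 0 < P.tau K := by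
  have := P.T_nonneg K
  unfold tau
  positivity

lemma T_le_tau (K : ℕ) : P.T K ≤ P.tau K := by
  have h := P.T_nonneg K
  unfold tau
  have : (0 : ℝ) ≤ K := Nat.cast_nonneg K
  nlinarith [mul_nonneg this h]

lemma tendsto_tau : Tendsto P.tau atTop atTop := by
  refine tendsto_atTop_mono (f := fun K : ℕ => (K : ℝ)) (fun K => ?_) tendsto_natCast_atTop_atTop
  have h := P.T_nonneg K
  unfold tau
  have : (0 : ℝ) ≤ K := Nat.cast_nonneg K
  nlinarith [mul_nonneg this h]

/-- The half widths of the windows. -/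
noncomputable def del (k : ℕ) : ℝ :=
  (1 / 2) ^ (k + 3) * Real.exp (-(L * ∑ i ∈ Finset.range k, P.tau i))

lemma del_pos (k : ℕ) : 0 < P.del k := by
  unfold del
  positivity

lemma del_le (hL : 0 < L) (k : ℕ) : P.del k ≤ xc k / 4 := by
  unfold del
  have h1 : Real.exp (-(L * ∑ i ∈ Finset.range k, P.tau i)) ≤ 1 := by
    rw [Real.exp_le_one_iff]
    have : 0 ≤ ∑ i ∈ Finset.range k, P.tau i := Finset.sum_nonneg fun i _ => (P.tau_pos i).le
    have := mul_nonneg hL.le this
    linarith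
  have h2 : xc k / 4 = (1 / 2) ^ (k + 3) * 1 := by
    unfold xc
    rw [pow_add, pow_add]
    norm_num
    ring
  rw [h2]
  exact mul_le_mul_of_nonneg_left h1 (by positivity)

lemma volume_le (hL : 0 < L) (K k : ℕ) :
    volume (Icc (xc k - P.del k) (xc k + P.del k) ∩ Icc (-(xc (K + 1))) (xc (K + 1)))
      ≤ ENNReal.ofReal (Real.exp (-(L * P.tau K)) / 4 * (1 / 2) ^ k) := by
  rcases le_or_gt k K with hk | hk
  · have h1 : Icc (xc k - P.del k) (xc k + P.del k) ∩ Icc (-(xc (K + 1))) (xc (K + 1)) = ∅ := by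
      ext s
      simp only [mem_inter_iff, mem_Icc, mem_empty_iff_false, iff_false, not_and, not_le]
      intro h2 _
      have h3 := P.del_le hL k
      have h4 := xc_anti hk
      have h5 := xc_succ K
      have h6 := xc_pos K
      linarith [h2.1]
    rw [h1]
    simp
  · refine (measure_mono inter_subset_left).trans ?_
    rw [Real.volume_Icc]
    apply ENNReal.ofReal_le_ofReal
    have h1 : xc k + P.del k - (xc k - P.del k)
        = Real.exp (-(L * ∑ i ∈ Finset.range k, P.tau i)) / 4 * (1 / 2) ^ k := by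
      unfold del
      rw [pow_add]
      norm_num
      ring
    rw [h1]
    refine mul_le_mul_of_nonneg_right ?_ (by positivity)
    refine div_le_div_of_nonneg_right ?_ (by norm_num)
    rw [Real.exp_le_exp]
    have h2 : P.tau K ≤ ∑ i ∈ Finset.range k, P.tau i :=
      Finset.single_le_sum (f := P.tau) (fun i _ => (P.tau_pos i).le) (Finset.mem_range.2 hk)
    have := mul_le_mul_of_nonneg_left h2 hL.le
    linarith

/-- The drift. -/
noncomputable def drift (x : ℝ) : ℝ := L * g1 P.del x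

lemma rs_ge (hL : 0 < L) (hζ : IsKL ζ) {B ε : ℝ} (hε0 : 0 < ε) (hε1 : ε ≤ 1) (K : ℕ) :
    ENNReal.ofReal (2 / (3 * Real.exp (L * (2 * P.T K - P.tau K))))
      ≤ ((rs (Icc (-B) B) (phi P.drift) ζ (Icc (-1 : ℝ) 1) {0} (P.tau K) ε : ℕ∞) : ENNReal) := by
  unfold rs
  rw [ENat.toENNReal_iInf]
  refine le_iInf fun S => ?_
  rw [ENat.toENNReal_iInf]
  refine le_iInf fun hS => ?_
  refine le_encard_of_separated (by positivity) (fun x₀ u => ∀ t ∈ Icc 0 (P.tau K),
    Metric.infDist (phi P.drift t x₀ u) {0} ≤ ζ (Metric.infDist x₀ {0} + ε) t) hS.2 ?_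
  intro x₀ hx₀ y₀ hy₀ u hu hx hy
  have key : ∀ z₀ ∈ Icc (-1 : ℝ) 1, (∀ t ∈ Icc 0 (P.tau K),
      Metric.infDist (phi P.drift t z₀ u) {0} ≤ ζ (Metric.infDist z₀ {0} + ε) t) →
      ∀ t ∈ Icc (P.T K) (P.tau K), |phi P.drift t z₀ u| ≤ xc (K + 1) := by
    intro z₀ hz₀ hz t ht
    have ht0 : 0 ≤ t := (P.T_nonneg K).trans ht.1
    have h1 := hz t ⟨ht0, ht.2⟩
    rw [Metric.infDist_singleton, Metric.infDist_singleton, Real.dist_eq, Real.dist_eq, sub_zero,
      sub_zero] at h1
    have h2 : |z₀| + ε ≤ 2 := by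
      have := abs_le.2 hz₀
      linarith
    have h3 : ζ (|z₀| + ε) t ≤ ζ 2 t :=
      (hζ.strictMonoOn t ht0).monotoneOn (mem_Ici.2 (by positivity)) (mem_Ici.2 (by norm_num)) h2
    exact h1.trans (h3.trans (P.T_spec K t ht.1))
  have h1 := sep_bound (B := B) hL (P.del_le hL) ((xc_le _).trans (by norm_num))
    (Real.exp_pos _).le (P.volume_le hL K) (P.T_nonneg K) (P.T_le_tau K) (hS.1 u hu)
    (key x₀ hx₀ hx) (key y₀ hy₀ hy)
  refine h1.trans ?_
  have e1 : Real.exp (L * (2 * P.T K - P.tau K))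
      = Real.exp (L * P.T K) * Real.exp (-(L * (P.tau K - P.T K))) := by
    rw [← Real.exp_add]
    congr 1
    ring
  have e2 : Real.exp (-(L * P.tau K)) ≤ Real.exp (-(L * (P.tau K - P.T K))) := by
    rw [Real.exp_le_exp]
    have := mul_nonneg hL.le (P.T_nonneg K)
    linarith
  have e3 : Real.exp (-(L * (P.tau K - P.T K))) * (2 * xc (K + 1))
      ≤ Real.exp (-(L * (P.tau K - P.T K))) * 1 :=
    mul_le_mul_of_nonneg_left (by linarith [xc_le (K + 1)]) (Real.exp_pos _).le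
  rw [e1]
  have e4 := Real.exp_pos (-(L * (P.tau K - P.T K)))
  have e5 : Real.exp (-(L * P.tau K)) + Real.exp (-(L * (P.tau K - P.T K))) * (2 * xc (K + 1))
      ≤ 3 * Real.exp (-(L * (P.tau K - P.T K))) := by linarith
  have e6 := mul_le_mul_of_nonneg_left e5 (Real.exp_pos (L * P.T K)).le
  linarith

lemma rate_ge (hL : 0 < L) (hζ : IsKL ζ) {B ε : ℝ} (hε0 : 0 < ε) (hε1 : ε ≤ 1) (K : ℕ) :
    ((L - (L + 1) / (K + 1) : ℝ) : EReal) ≤ ((1 / P.tau K : ℝ) : EReal) *
      ENNReal.log ((rs (Icc (-B) B) (phi P.drift) ζ (Icc (-1 : ℝ) 1) {0} (P.tau K) ε : ℕ∞) :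
        ENNReal) := by
  have h1 := P.rs_ge hL hζ (B := B) hε0 hε1 K
  have hτ := P.tau_pos K
  have h2 : ENNReal.log (ENNReal.ofReal (2 / (3 * Real.exp (L * (2 * P.T K - P.tau K)))))
      = ((Real.log (2 / (3 * Real.exp (L * (2 * P.T K - P.tau K)))) : ℝ) : EReal) :=
    ENNReal.log_ofReal_of_pos (by positivity)
  have h3 := ENNReal.log_monotone h1
  rw [h2] at h3
  have h4 : Real.log (2 / (3 * Real.exp (L * (2 * P.T K - P.tau K))))
      = Real.log (2 / 3) - L * (2 * P.T K - P.tau K) := by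
    rw [Real.log_div (by norm_num) (by positivity), Real.log_mul (by norm_num) (by positivity),
      Real.log_exp, Real.log_div (by norm_num) (by norm_num)]
    ring
  have h5 : -1 ≤ Real.log (2 / 3) := by
    have := Real.one_sub_inv_le_log_of_pos (x := 2 / 3) (by norm_num)
    norm_num at this ⊢
    linarith
  have h6 : L - (L + 1) / (K + 1) ≤ 1 / P.tau K *
      Real.log (2 / (3 * Real.exp (L * (2 * P.T K - P.tau K)))) := by
    rw [h4]
    have hK : (0 : ℝ) < K + 1 := by positivity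
    have hT := P.T_nonneg K
    have h7 : (L + 1) / (K + 1) = (L + 1) * (2 * P.T K + 1) / P.tau K := by
      unfold tau
      field_simp
    rw [h7, div_mul_eq_mul_div, one_mul, le_div_iff₀ hτ, sub_mul, div_mul_cancel₀ _ hτ.ne']
    nlinarith [mul_nonneg hL.le hT]
  refine (EReal.coe_le_coe_iff.2 h6).trans ?_
  rw [EReal.coe_mul]
  exact mul_le_mul_of_nonneg_left h3 (EReal.coe_nonneg.2 (by positivity))

theorem le_hs (hL : 0 < L) (hζ : IsKL ζ) {B ε : ℝ} (hε0 : 0 < ε) (hε1 : ε ≤ 1) :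
    (L : EReal) ≤ hs (Icc (-B) B) (phi P.drift) ζ (Icc (-1 : ℝ) 1) {0} ε := by
  refine le_of_forall_lt_imp_le_of_dense fun c hc => ?_
  obtain ⟨r, hr1, hr2⟩ := EReal.lt_iff_exists_real_btwn.1 hc
  refine hr1.le.trans ?_
  unfold hs
  have hlim : Tendsto (fun K : ℕ => L - (L + 1) / ((K : ℝ) + 1)) atTop (𝓝 (L - 0)) := by
    refine Tendsto.const_sub _ ?_
    have h1 : Tendsto (fun K : ℕ => (K : ℝ) + 1) atTop atTop :=
      tendsto_atTop_add_const_right _ _ tendsto_natCast_atTop_atTop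
    exact Tendsto.div_atTop tendsto_const_nhds h1
  rw [sub_zero] at hlim
  have hev := hlim.eventually (lt_mem_nhds (EReal.coe_lt_coe_iff.1 hr2))
  refine le_limsup_of_frequently_le ?_ (by isBoundedDefault)
  refine P.tendsto_tau.frequently (Eventually.frequently ?_)
  filter_upwards [hev] with K hK
  exact (EReal.coe_le_coe_iff.2 hK.le).trans (P.rate_ge hL hζ hε0 hε1 K)

end Params

end Pool.Agent.StabEntropy
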