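import Pool.Agent.Lib.MP_395e41_an.Upper

/-!
# The two entropies of the example
-/

set_option autoImplicit false

open MeasureTheory Filter Topology Set

namespace Pool.Agent.StabEntropy

lemma admissible_of {B : ℝ} {u : ℝ → ℝ} (hm : Measurable u) (h : ∀ t, 0 ≤ t → |u t| ≤ B) :
    Admissible (Icc (-B) B) u := by
  refine ⟨hm.aestronglyMeasurable, ?_⟩
  rw [ae_restrict_iff' measurableSet_Ici]
  exact Eventually.of_forall fun t ht => abs_le.1 (h t ht)

lemma IsKL.nonneg {ζ : ℝ → ℝ → ℝ} (hζ : IsKL ζ) {r t : ℝ} (hr : 0 ≤ r) (ht : 0 ≤ t) :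
    0 ≤ ζ r t := by
  rw [← hζ.zero t ht]
  exact (hζ.strictMonoOn t ht).monotoneOn (mem_Ici.2 le_rfl) (mem_Ici.2 hr) hr

namespace Params

variable {L : ℝ} {ζ : ℝ → ℝ → ℝ} (P : Params L ζ)

lemma lip_drift (hL : 0 < L) : Lip L P.drift := by
  intro p q
  unfold drift
  rw [← mul_sub, abs_mul, abs_of_pos hL]
  exact mul_le_mul_of_nonneg_left (g1_lip P.del p q) hL.le

lemma bound_drift (hL : 0 < L) (x : ℝ) : |P.drift x| ≤ L := by
  unfold drift
  rw [abs_mul, abs_of_pos hL]
  have := mul_le_mul_of_nonneg_left (g1_bound (P.del_le hL) x) hL.le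
  linarith

lemma drift_window (k : ℕ) {x : ℝ} (hx : |x - xc k| ≤ P.del k) :
    P.drift x = P.drift (xc k) - L * (x - xc k) := by
  unfold drift
  rw [g1_window k hx]
  ring

lemma stabilizable (hL : 0 < L) {l : ℝ} (hl : 0 < l)
    (hslow : ∀ r ∈ Icc (0 : ℝ) 1, ∀ t, 0 ≤ t → r * Real.exp (-(l * t)) ≤ ζ r t) :
    Stabilizable (Icc (-(2 * l + L)) (2 * l + L)) (phi P.drift) ζ (Icc (-1 : ℝ) 1) {0} := by
  intro x₀ hx₀
  have hx1 : |x₀| ≤ 1 := abs_le.2 hx₀
  have hu : Admissible (Icc (-(2 * l + L)) (2 * l + L)) (ctl P.drift 0 x₀ l) :=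
    admissible_of (continuous_ctl (P.lip_drift hL).continuous 0 x₀ l).measurable fun t ht =>
      abs_ctl_le (P.bound_drift hL) hl.le ht (by linarith)
  refine ⟨_, hu, fun t ht => ?_⟩
  have h1 := isSolution_expCurve P.drift 0 x₀ l
  rw [zero_add] at h1
  have h2 := unique_solution (P.lip_drift hL) h1
    (isSolution_phi (P.lip_drift hL) (P.bound_drift hL) hu x₀) ht
  rw [← h2, Metric.infDist_singleton, Metric.infDist_singleton, Real.dist_eq, Real.dist_eq,
    sub_zero, sub_zero, zero_add, abs_mul, abs_of_pos (Real.exp_pos _)]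
  exact hslow |x₀| ⟨abs_nonneg _, hx1⟩ t ht

lemma exists_practical (hL : 0 < L) {l : ℝ} (hl : 0 < l) (hζ : IsKL ζ)
    (hslow : ∀ r ∈ Icc (0 : ℝ) 1, ∀ t, 0 ≤ t → r * Real.exp (-(l * t)) ≤ ζ r t)
    {ε : ℝ} (hε : 0 < ε) :
    ∃ S : Set (ℝ → ℝ), S.Finite ∧ ∀ τ, IsPracticallySpanning (Icc (-(2 * l + L)) (2 * l + L))
      (phi P.drift) ζ (Icc (-1 : ℝ) 1) {0} τ ε S := by
  -- choice of the window
  obtain ⟨k, hk⟩ : ∃ k, xc k ≤ ε / 2 := by
    obtain ⟨n, hn⟩ := exists_pow_lt_of_lt_one (show 0 < ε / 2 by linarith)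
      (show (1 / 2 : ℝ) < 1 by norm_num)
    refine ⟨n, ?_⟩
    unfold xc
    rw [pow_succ]
    have : (0 : ℝ) ≤ (1 / 2) ^ n := by positivity
    linarith
  set g := P.drift with hg
  set c := xc k with hc
  set δ := P.del k with hδ
  have hδ0 : 0 < δ := P.del_pos k
  have hδc : δ ≤ c / 4 := P.del_le hL k
  have hc0 : 0 < c := xc_pos k
  have hc1 : c ≤ 1 / 2 := xc_le k
  -- choice of the time
  obtain ⟨T, hT0, hT⟩ : ∃ T : ℝ, 0 ≤ T ∧ 2 * Real.exp (-(l * T)) ≤ δ / 2 := by
    have h1 : Tendsto (fun T : ℝ => 2 * Real.exp (-(l * T))) atTop (𝓝 (2 * 0)) := by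
      refine Tendsto.const_mul _ ?_
      refine Real.tendsto_exp_neg_atTop_nhds_zero.comp ?_
      exact tendsto_id.const_mul_atTop hl
    rw [mul_zero] at h1
    have h2 := h1.eventually (ge_mem_nhds (show 0 < δ / 2 by linarith))
    obtain ⟨T, hT⟩ := (h2.and (eventually_ge_atTop 0)).exists
    exact ⟨T, hT.2, hT.1⟩
  -- choice of the mesh
  set E := Real.exp (L * T) with hE
  have hE0 : 0 < E := Real.exp_pos _
  obtain ⟨η, hη0, hη1, hη2⟩ : ∃ η : ℝ, 0 < η ∧ η * (1 + E) ≤ ε / 2 ∧ η * (1 + E) ≤ δ / 2 := by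
    refine ⟨min (ε / 2) (δ / 2) / (1 + E), by positivity, ?_, ?_⟩
    · rw [div_mul_cancel₀ _ (by positivity)]
      exact min_le_left _ _
    · rw [div_mul_cancel₀ _ (by positivity)]
      exact min_le_right _ _
  obtain ⟨F, hF1, hF2, hF3⟩ := (isCompact_Icc (a := (-1 : ℝ)) (b := 1)).finite_cover_balls hη0
  have hlip : Lip L g := P.lip_drift hL
  have hbd : ∀ x, |g x| ≤ L := P.bound_drift hL
  have hd : ∀ p ∈ Icc (-1 : ℝ) 1, |p - c| ≤ 2 := by
    intro p hp
    rw [abs_le]
    constructor <;> linarith [hp.1, hp.2]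
  have hadm1 : ∀ p ∈ Icc (-1 : ℝ) 1,
      Admissible (Icc (-(2 * l + L)) (2 * l + L)) (ctl g c (p - c) l) := fun p hp =>
    admissible_of (continuous_ctl hlip.continuous _ _ _).measurable fun t ht =>
      abs_ctl_le hbd hl.le ht (hd p hp)
  have hadm2 : ∀ p ∈ Icc (-1 : ℝ) 1,
      Admissible (Icc (-(2 * l + L)) (2 * l + L)) (ctl2 g c (p - c) l T) := fun p hp =>
    admissible_of (measurable_ctl2 hlip.continuous _ _ _ _) fun t ht => by
      unfold ctl2
      split_ifs with h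
      · exact abs_ctl_le hbd hl.le ht (hd p hp)
      · rw [abs_neg]
        have := hbd c
        linarith
  refine ⟨(fun p => ctl2 g c (p - c) l T) '' F, hF2.image _, fun τ => ⟨?_, ?_⟩⟩
  · rintro u ⟨p, hp, rfl⟩
    exact hadm2 p (hF1 hp)
  · intro x₀ hx₀
    obtain ⟨p, hpF, hp⟩ : ∃ p ∈ F, dist x₀ p < η := by
      have := hF3 hx₀
      simpa using this
    have hpI := hF1 hpF
    rw [Real.dist_eq] at hp
    refine ⟨_, ⟨p, hpF, rfl⟩, fun t ht => ?_⟩
    simp only
    -- the two solutions with the unswitched control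
    have s1 := isSolution_phi hlip hbd (hadm1 p hpI) x₀
    have s2 := isSolution_expCurve g c (p - c) l
    rw [add_sub_cancel] at s2
    have hx0 : phi g 0 x₀ (ctl g c (p - c) l) = x₀ := by
      have := (s1.2 0 le_rfl).2
      simpa using this
    have hclose : ∀ s, 0 ≤ s → s ≤ T →
        |phi g s x₀ (ctl g c (p - c) l) - (c + (p - c) * Real.exp (-(l * s)))| ≤ E * η := by
      intro s hs hsT
      have h1 := upper_exp hlip s1 s2 le_rfl hs
      simp only [hx0, mul_zero, neg_zero, Real.exp_zero, mul_one, add_sub_cancel, sub_zero] at h1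
      have h2 : Real.exp (L * s) ≤ E := by
        rw [hE, Real.exp_le_exp]
        exact mul_le_mul_of_nonneg_left hsT hL.le
      exact h1.trans (mul_le_mul h2 hp.le (abs_nonneg _) hE0.le)
    have hxT : |phi g T x₀ (ctl g c (p - c) l) - c| ≤ δ := by
      have h1 := hclose T hT0 le_rfl
      have h2 : |(p - c) * Real.exp (-(l * T))| ≤ δ / 2 := by
        rw [abs_mul, abs_of_pos (Real.exp_pos _)]
        have := mul_le_mul_of_nonneg_right (hd p hpI) (Real.exp_pos (-(l * T))).le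
        linarith
      have h3 : phi g T x₀ (ctl g c (p - c) l) - c
          = (phi g T x₀ (ctl g c (p - c) l) - (c + (p - c) * Real.exp (-(l * T))))
            + (p - c) * Real.exp (-(l * T)) := by ring
      rw [h3]
      refine (abs_add_le _ _).trans ?_
      nlinarith
    have s3 := isSolution_glue hT0 hL.le (fun x hx => P.drift_window k hx) s1 hxT
    have h4 := unique_solution hlip s3 (isSolution_phi hlip hbd (hadm2 p hpI) x₀) ht.1
    rw [← h4, Metric.infDist_singleton, Metric.infDist_singleton, Real.dist_eq, Real.dist_eq,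
      sub_zero, sub_zero]
    have hζ1 : ζ |x₀| t ≤ ζ (|x₀| + ε) t :=
      (hζ.strictMonoOn t ht.1).monotoneOn (mem_Ici.2 (abs_nonneg _))
        (mem_Ici.2 (by positivity)) (by linarith)
    rcases le_total t T with htT | hTt
    · rw [min_eq_left htT, max_eq_right htT, sub_self, mul_zero, neg_zero, Real.exp_zero,
        sub_self, mul_zero, add_zero]
      have h5 := hclose t ht.1 htT
      have h6 : |c + (p - c) * Real.exp (-(l * t))| ≤ c + |p| * Real.exp (-(l * t)) := by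
        have h7 : c + (p - c) * Real.exp (-(l * t))
            = c * (1 - Real.exp (-(l * t))) + p * Real.exp (-(l * t)) := by ring
        have h8 : Real.exp (-(l * t)) ≤ 1 := by
          rw [Real.exp_le_one_iff]
          have := mul_nonneg hl.le ht.1
          linarith
        have h9 := Real.exp_pos (-(l * t))
        rw [h7]
        refine (abs_add_le _ _).trans ?_
        rw [abs_mul, abs_mul, abs_of_pos h9, abs_of_pos hc0, abs_of_nonneg (by linarith)]
        nlinarith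
      have h10 : |p| ≤ |x₀| + η := by
        have := abs_sub_abs_le_abs_sub p x₀
        rw [abs_sub_comm] at this
        linarith
      have h11 : |p| * Real.exp (-(l * t)) ≤ |x₀| * Real.exp (-(l * t)) + η := by
        have h8 : Real.exp (-(l * t)) ≤ 1 := by
          rw [Real.exp_le_one_iff]
          have := mul_nonneg hl.le ht.1
          linarith
        have h9 := Real.exp_pos (-(l * t))
        nlinarith
      have h12 := hslow |x₀| ⟨abs_nonneg _, abs_le.2 hx₀⟩ t ht.1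
      have h13 : |phi g t x₀ (ctl g c (p - c) l)| ≤ E * η + |c + (p - c) * Real.exp (-(l * t))| := by
        have := abs_sub_abs_le_abs_sub (phi g t x₀ (ctl g c (p - c) l))
          (c + (p - c) * Real.exp (-(l * t)))
        linarith
      have h14 : η * (1 + E) = η + E * η := by ring
      rw [h14] at hη1
      linarith
    · rw [min_eq_right hTt, max_eq_left hTt]
      have h5 : 0 ≤ ζ |x₀| t := hζ.nonneg (abs_nonneg _) ht.1
      have h6 : phi g T x₀ (ctl g c (p - c) l)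
          + (phi g T x₀ (ctl g c (p - c) l) - c) * (Real.exp (-(L * (t - T))) - 1)
          = c + (phi g T x₀ (ctl g c (p - c) l) - c) * Real.exp (-(L * (t - T))) := by ring
      rw [h6]
      have h7 : |(phi g T x₀ (ctl g c (p - c) l) - c) * Real.exp (-(L * (t - T)))| ≤ δ := by
        rw [abs_mul, abs_of_pos (Real.exp_pos _)]
        have h3 : Real.exp (-(L * (t - T))) ≤ 1 := by
          rw [Real.exp_le_one_iff]
          have := mul_nonneg hL.le (sub_nonneg.2 hTt)
          linarith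
        have := mul_le_mul hxT h3 (Real.exp_pos _).le ((abs_nonneg _).trans hxT)
        linarith
      have h8 := abs_add_le c ((phi g T x₀ (ctl g c (p - c) l) - c) * Real.exp (-(L * (t - T))))
      rw [abs_of_pos hc0] at h8
      linarith

theorem hps_eq_zero (hL : 0 < L) {l : ℝ} (hl : 0 < l) (hζ : IsKL ζ)
    (hslow : ∀ r ∈ Icc (0 : ℝ) 1, ∀ t, 0 ≤ t → r * Real.exp (-(l * t)) ≤ ζ r t)
    {ε : ℝ} (hε : 0 < ε) :
    hps (Icc (-(2 * l + L)) (2 * l + L)) (phi P.drift) ζ (Icc (-1 : ℝ) 1) {0} ε = 0 := by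
  obtain ⟨S, hS1, hS2⟩ := P.exists_practical hL hl hζ hslow hε
  set r : ℝ → ENNReal := fun τ => ((rps (Icc (-(2 * l + L)) (2 * l + L)) (phi P.drift) ζ
    (Icc (-1 : ℝ) 1) {0} τ ε : ℕ∞) : ENNReal) with hr
  have hle : ∀ τ, r τ ≤ ((S.ncard : ℕ) : ENNReal) := by
    intro τ
    have h1 : rps (Icc (-(2 * l + L)) (2 * l + L)) (phi P.drift) ζ (Icc (-1 : ℝ) 1) {0} τ ε
        ≤ S.encard := iInf₂_le S (hS2 τ)
    rw [← hS1.cast_ncard_eq] at h1
    simp only [hr]
    have h2 := ENat.toENNReal_mono h1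
    exact h2
  have hge : ∀ τ, 1 ≤ r τ := by
    intro τ
    have h1 : (1 : ℕ∞) ≤ rps (Icc (-(2 * l + L)) (2 * l + L)) (phi P.drift) ζ
        (Icc (-1 : ℝ) 1) {0} τ ε := by
      unfold rps
      refine le_iInf fun S => le_iInf fun hS => ?_
      rw [Set.one_le_encard_iff_nonempty]
      obtain ⟨u, hu, _⟩ := hS.2 0 ⟨by norm_num, by norm_num⟩
      exact ⟨u, hu⟩
    have h2 := ENat.toENNReal_mono h1
    simp only [hr]
    simpa using h2
  have hN : (1 : ENNReal) ≤ ((S.ncard : ℕ) : ENNReal) := (hge 0).trans (hle 0)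
  have hlogN : ENNReal.log ((S.ncard : ℕ) : ENNReal) = ((Real.log S.ncard : ℝ) : EReal) := by
    have h1 : 0 < (S.ncard : ℝ) := by
      have : (1 : ℕ) ≤ S.ncard := by exact_mod_cast hN
      exact_mod_cast this
    rw [← ENNReal.ofReal_natCast, ENNReal.log_ofReal_of_pos h1]
  have hlim : Tendsto (fun τ : ℝ => ((1 / τ : ℝ) : EReal) * ENNReal.log (r τ)) atTop (𝓝 0) := by
    have h1 : Tendsto (fun τ : ℝ => ((1 / τ * Real.log S.ncard : ℝ) : EReal)) atTop (𝓝 0) := by
      have h2 : Tendsto (fun τ : ℝ => 1 / τ * Real.log S.ncard) atTop (𝓝 (0 * Real.log S.ncard)) := by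
        refine Tendsto.mul_const _ ?_
        exact tendsto_const_nhds.div_atTop tendsto_id
      rw [zero_mul] at h2
      exact (continuous_coe_real_ereal.tendsto 0).comp h2
    refine tendsto_of_tendsto_of_tendsto_of_le_of_le' tendsto_const_nhds h1 ?_ ?_
    · filter_upwards [eventually_gt_atTop 0] with τ hτ
      have h3 : (0 : EReal) ≤ ENNReal.log (r τ) := by
        have := ENNReal.log_monotone (hge τ)
        simpa using this
      exact mul_nonneg (EReal.coe_nonneg.2 (by positivity)) h3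
    · filter_upwards [eventually_gt_atTop 0] with τ hτ
      rw [EReal.coe_mul, ← hlogN]
      exact mul_le_mul_of_nonneg_left (ENNReal.log_monotone (hle τ))
        (EReal.coe_nonneg.2 (by positivity))
  exact hlim.limsup_eq

end Params

/-- The spanning condition is monotone in `ε`, so `h_s(ε)` is antitone. -/
lemma hs_antitone {U : Set ℝ} {φ : ℝ → ℝ → (ℝ → ℝ) → ℝ} {ζ : ℝ → ℝ → ℝ} (hζ : IsKL ζ)
    {Γ Λ : Set ℝ} : AntitoneOn (hs U φ ζ Γ Λ) (Ioi 0) := by
  intro ε₁ h1 ε₂ _ h12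
  unfold hs
  refine limsup_le_limsup ?_ (by isBoundedDefault) (by isBoundedDefault)
  filter_upwards [eventually_gt_atTop 0] with τ hτ
  refine mul_le_mul_of_nonneg_left (ENNReal.log_monotone (ENat.toENNReal_mono ?_))
    (EReal.coe_nonneg.2 (by positivity))
  unfold rs
  refine le_iInf fun S => le_iInf fun hS => ?_
  refine iInf₂_le S ⟨hS.1, fun x₀ hx₀ => ?_⟩
  obtain ⟨u, hu, h⟩ := hS.2 x₀ hx₀
  have h1' : (0 : ℝ) < ε₁ := h1
  refine ⟨u, hu, fun t ht => (h t ht).trans ?_⟩
  exact (hζ.strictMonoOn t ht.1).monotoneOn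
    (mem_Ici.2 (add_nonneg Metric.infDist_nonneg h1'.le))
    (mem_Ici.2 (add_nonneg Metric.infDist_nonneg (h1'.le.trans h12))) (by linarith)

lemma exists_tendsto_hs {U : Set ℝ} {φ : ℝ → ℝ → (ℝ → ℝ) → ℝ} {ζ : ℝ → ℝ → ℝ} (hζ : IsKL ζ)
    {Γ Λ : Set ℝ} : ∃ h : EReal, Tendsto (hs U φ ζ Γ Λ) (𝓝[>] 0) (𝓝 h) := by
  refine ⟨sSup (hs U φ ζ Γ Λ '' Ioi 0), ?_⟩
  refine tendsto_order.2 ⟨fun b hb => ?_, fun b hb => ?_⟩
  · obtain ⟨_, ⟨ε, hε, rfl⟩, hlt⟩ := lt_sSup_iff.1 hb
    have hε' : (0 : ℝ) < ε := hε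
    filter_upwards [Ioo_mem_nhdsGT hε'] with ε' hε''
    exact hlt.trans_le (hs_antitone hζ hε''.1 hε hε''.2.le)
  · filter_upwards [self_mem_nhdsWithin] with ε hε
    exact (le_sSup (mem_image_of_mem (hs U φ ζ Γ Λ) hε)).trans_lt hb

end Pool.Agent.StabEntropy
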