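import Pool.Agent.Lib.MP_395e41_an.Defs

/-!
# The scalar equation `x' = g x + u`
-/

set_option autoImplicit false

open MeasureTheory Filter Topology Set

namespace Pool.Agent.StabEntropy

/-- A function satisfying a Lipschitz estimate, in the form used below. -/
def Lip (L : ℝ) (g : ℝ → ℝ) : Prop := ∀ a b, |g a - g b| ≤ L * |a - b|

lemma Lip.lipschitzWith {L : ℝ} {g : ℝ → ℝ} (h : Lip L g) : LipschitzWith L.toNNReal g := by
  refine LipschitzWith.of_dist_le' fun a b => ?_
  rw [Real.dist_eq, Real.dist_eq]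
  exact h a b

lemma Lip.continuous {L : ℝ} {g : ℝ → ℝ} (h : Lip L g) : Continuous g :=
  h.lipschitzWith.continuous

/-- The difference of two solutions with the same control is continuously differentiable. -/
lemma exists_diff {L : ℝ} {g : ℝ → ℝ} (hg : Lip L g) {u : ℝ → ℝ} {x₀ y₀ : ℝ} {x y : ℝ → ℝ}
    (hx : IsSolution (fun x u => g x + u) u x₀ x)
    (hy : IsSolution (fun x u => g x + u) u y₀ y) :
    ∃ D : ℝ → ℝ, (∀ t, 0 ≤ t → D t = x t - y t) ∧
      ∀ t, 0 ≤ t → HasDerivAt D (g (x t) - g (y t)) t := by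
  have hmax : Continuous (fun s : ℝ => max s 0) := by fun_prop
  have hcx : Continuous (fun s : ℝ => x (max s 0)) := by
    have := hx.1.comp_continuous hmax (fun s => mem_Ici.2 (le_max_right _ _))
    exact this
  have hcy : Continuous (fun s : ℝ => y (max s 0)) := by
    have := hy.1.comp_continuous hmax (fun s => mem_Ici.2 (le_max_right _ _))
    exact this
  set h : ℝ → ℝ := fun s => g (x (max s 0)) - g (y (max s 0)) with hh
  have hch : Continuous h := (hg.continuous.comp hcx).sub (hg.continuous.comp hcy)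
  refine ⟨fun t => (x₀ - y₀) + ∫ s in (0 : ℝ)..t, h s, ?_, ?_⟩
  · intro t ht
    obtain ⟨hi1, he1⟩ := hx.2 t ht
    obtain ⟨hi2, he2⟩ := hy.2 t ht
    have h1 : ∫ s in (0 : ℝ)..t, h s
        = ∫ s in (0 : ℝ)..t, ((g (x s) + u s) - (g (y s) + u s)) := by
      refine intervalIntegral.integral_congr fun s hs => ?_
      rw [uIcc_of_le ht] at hs
      simp only [hh, max_eq_left hs.1]
      ring
    have h2 := intervalIntegral.integral_sub hi1 hi2
    simp only at h2 he1 he2 ⊢
    rw [h1, h2, he1, he2]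
    ring
  · intro t ht
    have h1 := (hch.integral_hasStrictDerivAt 0 t).hasDerivAt
    have h2 := h1.const_add (x₀ - y₀)
    simpa only [hh, max_eq_left ht] using h2

/-- Differences shrink at most exponentially. -/
lemma lower_exp {L : ℝ} {g : ℝ → ℝ} (hg : Lip L g) {u : ℝ → ℝ} {x₀ y₀ : ℝ}
    {x y : ℝ → ℝ}
    (hx : IsSolution (fun x u => g x + u) u x₀ x)
    (hy : IsSolution (fun x u => g x + u) u y₀ y) {s t : ℝ} (hs : 0 ≤ s) (hst : s ≤ t) :
    |x s - y s| ≤ Real.exp (L * (t - s)) * |x t - y t| := by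
  obtain ⟨D, hD1, hD2⟩ := exists_diff hg hx hy
  set E : ℝ → ℝ := fun r => (D r * Real.exp (L * r)) ^ 2 with hE
  have hder : ∀ r, 0 ≤ r → HasDerivAt E
      (2 * (D r * Real.exp (L * r)) * ((g (x r) - g (y r)) * Real.exp (L * r)
        + D r * (Real.exp (L * r) * L))) r := by
    intro r hr
    have h1 : HasDerivAt (fun r : ℝ => Real.exp (L * r)) (Real.exp (L * r) * L) r := by
      have := ((hasDerivAt_id r).const_mul L).exp
      simpa using this
    have h2 := ((hD2 r hr).fun_mul h1).fun_pow 2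
    simpa [hE] using h2
  have hmono : MonotoneOn E (Icc s t) := by
    refine monotoneOn_of_deriv_nonneg (convex_Icc s t) ?_ ?_ ?_
    · intro r hr
      exact (hder r (hs.trans hr.1)).continuousAt.continuousWithinAt
    · intro r hr
      rw [interior_Icc] at hr
      exact (hder r (hs.trans hr.1.le)).differentiableAt.differentiableWithinAt
    · intro r hr
      rw [interior_Icc] at hr
      have hr0 : 0 ≤ r := hs.trans hr.1.le
      rw [(hder r hr0).deriv, hD1 r hr0]
      have h3 := hg (x r) (y r)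
      have h4 : 0 ≤ (x r - y r) * (g (x r) - g (y r)) + L * (x r - y r) ^ 2 := by
        have h5 : |(x r - y r) * (g (x r) - g (y r))| ≤ L * (x r - y r) ^ 2 := by
          rw [abs_mul, ← sq_abs (x r - y r)]
          have := mul_le_mul_of_nonneg_left h3 (abs_nonneg (x r - y r))
          nlinarith
        have := neg_abs_le ((x r - y r) * (g (x r) - g (y r)))
        linarith
      have h6 := mul_nonneg (mul_nonneg (by norm_num : (0 : ℝ) ≤ 2) h4)
        (sq_nonneg (Real.exp (L * r)))
      nlinarith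
  have h1 := hmono (left_mem_Icc.2 hst) (right_mem_Icc.2 hst) hst
  simp only [hE] at h1
  have h2 := sq_le_sq.1 h1
  rw [abs_mul, abs_mul, abs_of_pos (Real.exp_pos _), abs_of_pos (Real.exp_pos _),
    hD1 s hs, hD1 t (hs.trans hst)] at h2
  have h3 : Real.exp (L * (t - s)) = Real.exp (L * t) / Real.exp (L * s) := by
    rw [← Real.exp_sub]
    congr 1
    ring
  rw [h3, div_mul_eq_mul_div, le_div_iff₀ (Real.exp_pos _)]
  linarith

/-- Differences grow at most exponentially. -/
lemma upper_exp {L : ℝ} {g : ℝ → ℝ} (hg : Lip L g) {u : ℝ → ℝ} {x₀ y₀ : ℝ}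
    {x y : ℝ → ℝ}
    (hx : IsSolution (fun x u => g x + u) u x₀ x)
    (hy : IsSolution (fun x u => g x + u) u y₀ y) {s t : ℝ} (hs : 0 ≤ s) (hst : s ≤ t) :
    |x t - y t| ≤ Real.exp (L * (t - s)) * |x s - y s| := by
  obtain ⟨D, hD1, hD2⟩ := exists_diff hg hx hy
  set E : ℝ → ℝ := fun r => (D r * Real.exp (-(L * r))) ^ 2 with hE
  have hder : ∀ r, 0 ≤ r → HasDerivAt E
      (2 * (D r * Real.exp (-(L * r))) * ((g (x r) - g (y r)) * Real.exp (-(L * r))
        + D r * (Real.exp (-(L * r)) * (-L)))) r := by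
    intro r hr
    have h1 : HasDerivAt (fun r : ℝ => Real.exp (-(L * r))) (Real.exp (-(L * r)) * (-L)) r := by
      have := ((hasDerivAt_id r).const_mul L).neg.exp
      simpa using this
    have h2 := ((hD2 r hr).fun_mul h1).fun_pow 2
    simpa [hE] using h2
  have hmono : AntitoneOn E (Icc s t) := by
    refine antitoneOn_of_deriv_nonpos (convex_Icc s t) ?_ ?_ ?_
    · intro r hr
      exact (hder r (hs.trans hr.1)).continuousAt.continuousWithinAt
    · intro r hr
      rw [interior_Icc] at hr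
      exact (hder r (hs.trans hr.1.le)).differentiableAt.differentiableWithinAt
    · intro r hr
      rw [interior_Icc] at hr
      have hr0 : 0 ≤ r := hs.trans hr.1.le
      rw [(hder r hr0).deriv, hD1 r hr0]
      have h3 := hg (x r) (y r)
      have h4 : (x r - y r) * (g (x r) - g (y r)) - L * (x r - y r) ^ 2 ≤ 0 := by
        have h5 : |(x r - y r) * (g (x r) - g (y r))| ≤ L * (x r - y r) ^ 2 := by
          rw [abs_mul, ← sq_abs (x r - y r)]
          have := mul_le_mul_of_nonneg_left h3 (abs_nonneg (x r - y r))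
          nlinarith
        have := le_abs_self ((x r - y r) * (g (x r) - g (y r)))
        linarith
      have h6 := mul_nonneg (mul_nonneg (by norm_num : (0 : ℝ) ≤ 2) (neg_nonneg.2 h4))
        (sq_nonneg (Real.exp (-(L * r))))
      nlinarith
  have h1 := hmono (left_mem_Icc.2 hst) (right_mem_Icc.2 hst) hst
  simp only [hE] at h1
  have h2 := sq_le_sq.1 h1
  rw [abs_mul, abs_mul, abs_of_pos (Real.exp_pos _), abs_of_pos (Real.exp_pos _),
    hD1 s hs, hD1 t (hs.trans hst)] at h2
  have h3 : Real.exp (L * (t - s)) = Real.exp (-(L * s)) / Real.exp (-(L * t)) := by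
    rw [← Real.exp_sub]
    congr 1
    ring
  rw [h3, div_mul_eq_mul_div, le_div_iff₀ (Real.exp_pos _)]
  linarith

/-- Growth of differences in a region where the drift is almost expanding. -/
lemma lower_kappa {L : ℝ} {g : ℝ → ℝ} (hg : Lip L g) {u : ℝ → ℝ} {x₀ y₀ : ℝ}
    {x y : ℝ → ℝ}
    (hx : IsSolution (fun x u => g x + u) u x₀ x)
    (hy : IsSolution (fun x u => g x + u) u y₀ y) {s t κ a : ℝ} (hs : 0 ≤ s) (hst : s ≤ t)
    (hκ : 0 ≤ κ) (hga : ∀ p q, |p| ≤ a → |q| ≤ a → L * (p - q - κ) ≤ g p - g q)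
    (hxa : ∀ r ∈ Icc s t, |x r| ≤ a) (hya : ∀ r ∈ Icc s t, |y r| ≤ a) :
    x s - y s ≤ κ + Real.exp (-(L * (t - s))) * (x t - y t) := by
  obtain ⟨D, hD1, hD2⟩ := exists_diff hg hx hy
  set E : ℝ → ℝ := fun r => (D r - κ) * Real.exp (-(L * r)) with hE
  have hder : ∀ r, 0 ≤ r → HasDerivAt E
      ((g (x r) - g (y r)) * Real.exp (-(L * r))
        + (D r - κ) * (Real.exp (-(L * r)) * (-L))) r := by
    intro r hr
    have h1 : HasDerivAt (fun r : ℝ => Real.exp (-(L * r))) (Real.exp (-(L * r)) * (-L)) r := by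
      have := ((hasDerivAt_id r).const_mul L).neg.exp
      simpa using this
    exact ((hD2 r hr).sub_const κ).fun_mul h1
  have hmono : MonotoneOn E (Icc s t) := by
    refine monotoneOn_of_deriv_nonneg (convex_Icc s t) ?_ ?_ ?_
    · intro r hr
      exact (hder r (hs.trans hr.1)).continuousAt.continuousWithinAt
    · intro r hr
      rw [interior_Icc] at hr
      exact (hder r (hs.trans hr.1.le)).differentiableAt.differentiableWithinAt
    · intro r hr
      rw [interior_Icc] at hr
      have hr0 : 0 ≤ r := hs.trans hr.1.le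
      rw [(hder r hr0).deriv, hD1 r hr0]
      have h3 := hga (x r) (y r) (hxa r ⟨hr.1.le, hr.2.le⟩) (hya r ⟨hr.1.le, hr.2.le⟩)
      have h4 : 0 ≤ (g (x r) - g (y r) - L * (x r - y r - κ)) * Real.exp (-(L * r)) :=
        mul_nonneg (sub_nonneg.2 h3) (Real.exp_pos _).le
      nlinarith
  have h1 := hmono (left_mem_Icc.2 hst) (right_mem_Icc.2 hst) hst
  simp only [hE] at h1
  rw [hD1 s hs, hD1 t (hs.trans hst)] at h1
  have h3 : Real.exp (-(L * (t - s))) = Real.exp (-(L * t)) / Real.exp (-(L * s)) := by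
    rw [← Real.exp_sub]
    congr 1
    ring
  have h4 : x s - y s - κ ≤ Real.exp (-(L * (t - s))) * (x t - y t - κ) := by
    rw [h3, div_mul_eq_mul_div, le_div_iff₀ (Real.exp_pos _)]
    linarith
  have h5 : Real.exp (-(L * (t - s))) * (x t - y t - κ)
      ≤ Real.exp (-(L * (t - s))) * (x t - y t) := by
    apply mul_le_mul_of_nonneg_left _ (Real.exp_pos _).le
    linarith
  linarith

lemma unique_solution {L : ℝ} {g : ℝ → ℝ} (hg : Lip L g) {u : ℝ → ℝ} {x₀ : ℝ}
    {x y : ℝ → ℝ}
    (hx : IsSolution (fun x u => g x + u) u x₀ x)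
    (hy : IsSolution (fun x u => g x + u) u x₀ y) {t : ℝ} (ht : 0 ≤ t) : x t = y t := by
  have h := upper_exp hg hx hy le_rfl ht
  have h0 : x 0 - y 0 = 0 := by
    have h1 := (hx.2 0 le_rfl).2
    have h2 := (hy.2 0 le_rfl).2
    simp only [intervalIntegral.integral_same, add_zero] at h1 h2
    rw [h1, h2, sub_self]
  rw [h0, abs_zero, mul_zero] at h
  have := abs_nonpos_iff.1 h
  linarith

end Pool.Agent.StabEntropy
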