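import Pool.Agent.Lib.MP_395e41_an.Lower

/-!
# Stabilizability and the practical stabilization entropy
-/

set_option autoImplicit false

open MeasureTheory Filter Topology Set

namespace Pool.Agent.StabEntropy

lemma expCurve_hasDerivAt (c d l t : ℝ) :
    HasDerivAt (fun t => c + d * Real.exp (-(l * t))) (-(l * (d * Real.exp (-(l * t))))) t := by
  have h1 : HasDerivAt (fun r : ℝ => Real.exp (-(l * r))) (Real.exp (-(l * t)) * (-l)) t := by
    have := ((hasDerivAt_id t).const_mul l).neg.exp
    simpa using this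
  have h2 := (h1.const_mul d).const_add c
  refine h2.congr_deriv ?_
  ring

/-- The control that makes the exponential curve a solution. -/
noncomputable def ctl (g : ℝ → ℝ) (c d l t : ℝ) : ℝ :=
  -(l * (d * Real.exp (-(l * t)))) - g (c + d * Real.exp (-(l * t)))

lemma continuous_ctl {g : ℝ → ℝ} (hg : Continuous g) (c d l : ℝ) : Continuous (ctl g c d l) := by
  unfold ctl
  fun_prop

lemma isSolution_expCurve (g : ℝ → ℝ) (c d l : ℝ) :
    IsSolution (fun x u => g x + u) (ctl g c d l) (c + d)
      (fun t => c + d * Real.exp (-(l * t))) := by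
  have hc : Continuous (fun t => c + d * Real.exp (-(l * t))) := by fun_prop
  refine ⟨hc.continuousOn, fun t ht => ?_⟩
  have h1 : (fun s => g (c + d * Real.exp (-(l * s))) + ctl g c d l s)
      = fun s => -(l * (d * Real.exp (-(l * s)))) := by
    funext s
    unfold ctl
    ring
  have hc2 : Continuous (fun s => -(l * (d * Real.exp (-(l * s))))) := by fun_prop
  simp only
  rw [h1]
  refine ⟨hc2.intervalIntegrable _ _, ?_⟩
  rw [intervalIntegral.integral_eq_sub_of_hasDerivAt
    (fun s _ => expCurve_hasDerivAt c d l s) (hc2.intervalIntegrable _ _)]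
  simp

lemma abs_ctl_le {g : ℝ → ℝ} {C : ℝ} (hC : ∀ x, |g x| ≤ C) {c d l t : ℝ} (hl : 0 ≤ l)
    (ht : 0 ≤ t) (hd : |d| ≤ 2) : |ctl g c d l t| ≤ 2 * l + C := by
  unfold ctl
  have h1 : Real.exp (-(l * t)) ≤ 1 := by
    rw [Real.exp_le_one_iff]
    have := mul_nonneg hl ht
    linarith
  have h2 : |-(l * (d * Real.exp (-(l * t))))| ≤ 2 * l := by
    rw [abs_neg, abs_mul, abs_mul, abs_of_nonneg hl, abs_of_pos (Real.exp_pos _)]
    have h3 : |d| * Real.exp (-(l * t)) ≤ 2 * 1 :=
      mul_le_mul hd h1 (Real.exp_pos _).le (by norm_num)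
    nlinarith
  have := abs_sub (-(l * (d * Real.exp (-(l * t))))) (g (c + d * Real.exp (-(l * t))))
  linarith [hC (c + d * Real.exp (-(l * t)))]

/-- The control that follows the exponential curve up to time `T` and then holds. -/
noncomputable def ctl2 (g : ℝ → ℝ) (c d l T t : ℝ) : ℝ :=
  if t < T then ctl g c d l t else -(g c)

lemma measurable_ctl2 {g : ℝ → ℝ} (hg : Continuous g) (c d l T : ℝ) :
    Measurable (ctl2 g c d l T) :=
  Measurable.ite measurableSet_Iio (continuous_ctl hg c d l).measurable measurable_const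

/-- Gluing a solution with an exponential curve in a window. -/
lemma isSolution_glue {g : ℝ → ℝ} {c d l T L δ x₀ : ℝ} (hT : 0 ≤ T) (hL : 0 ≤ L)
    (hwin : ∀ x, |x - c| ≤ δ → g x = g c - L * (x - c)) {x : ℝ → ℝ}
    (hx : IsSolution (fun x u => g x + u) (ctl g c d l) x₀ x) (hxT : |x T - c| ≤ δ) :
    IsSolution (fun x u => g x + u) (ctl2 g c d l T) x₀
      (fun t => x (min t T) + (x T - c) * (Real.exp (-(L * (max t T - T))) - 1)) := by
  set z : ℝ → ℝ := fun t => x (min t T) + (x T - c) * (Real.exp (-(L * (max t T - T))) - 1)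
    with hz
  have hz1 : ∀ t, t ≤ T → z t = x t := by
    intro t ht
    simp only [hz]
    rw [min_eq_left ht, max_eq_right ht, sub_self, mul_zero, neg_zero, Real.exp_zero, sub_self,
      mul_zero, add_zero]
  have hz2 : ∀ t, T ≤ t → z t = c + (x T - c) * Real.exp (-(L * (t - T))) := by
    intro t ht
    simp only [hz]
    rw [min_eq_right ht, max_eq_left ht]
    ring
  have hcont : ContinuousOn z (Ici 0) := by
    have h1 : ContinuousOn (fun t => x (min t T)) (Ici 0) := by
      refine hx.1.comp (by fun_prop) fun t ht => ?_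
      exact mem_Ici.2 (le_min ht hT)
    have h2 : Continuous (fun t : ℝ => (x T - c) * (Real.exp (-(L * (max t T - T))) - 1)) := by
      fun_prop
    exact h1.add h2.continuousOn
  have hint1 : ∀ t, 0 ≤ t → t ≤ T →
      IntervalIntegrable (fun s => g (z s) + ctl2 g c d l T s) volume 0 t ∧
      z t = x₀ + ∫ s in (0 : ℝ)..t, (g (z s) + ctl2 g c d l T s) := by
    intro t ht htT
    obtain ⟨hi, he⟩ := hx.2 t ht
    simp only at hi he
    constructor
    · refine hi.congr_ae ?_
      rw [uIoc_of_le ht, EventuallyEq, ae_restrict_iff' measurableSet_Ioc]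
      have h0 : ∀ᵐ s : ℝ, s ≠ T := by simp [ae_iff]
      filter_upwards [h0] with s hs0 hs
      have hs1 : s < T := lt_of_le_of_ne (hs.2.trans htT) hs0
      rw [hz1 s hs1.le]
      unfold ctl2
      rw [if_pos hs1]
    · rw [hz1 t htT, he]
      congr 1
      refine intervalIntegral.integral_congr_ae ?_
      have h0 : ∀ᵐ s : ℝ, s ≠ T := by simp [ae_iff]
      filter_upwards [h0] with s hs0 hs
      rw [uIoc_of_le ht] at hs
      have hs1 : s < T := lt_of_le_of_ne (hs.2.trans htT) hs0
      rw [hz1 s hs1.le]
      unfold ctl2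
      rw [if_pos hs1]
  refine ⟨hcont, fun t ht => ?_⟩
  rcases le_total t T with htT | hTt
  · exact hint1 t ht htT
  · obtain ⟨hi1, he1⟩ := hint1 T hT le_rfl
    have hcurve : Continuous (fun s : ℝ => -(L * ((x T - c) * Real.exp (-(L * (s - T)))))) := by
      fun_prop
    have hval : ∀ s ∈ Icc T t, g (z s) + ctl2 g c d l T s
        = -(L * ((x T - c) * Real.exp (-(L * (s - T))))) := by
      intro s hs
      have h1 : |z s - c| ≤ δ := by
        rw [hz2 s hs.1]
        have h2 : c + (x T - c) * Real.exp (-(L * (s - T))) - c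
            = (x T - c) * Real.exp (-(L * (s - T))) := by ring
        rw [h2, abs_mul, abs_of_pos (Real.exp_pos _)]
        have h3 : Real.exp (-(L * (s - T))) ≤ 1 := by
          rw [Real.exp_le_one_iff]
          have := mul_nonneg hL (sub_nonneg.2 hs.1)
          linarith
        have := mul_le_mul hxT h3 (Real.exp_pos _).le ((abs_nonneg _).trans hxT)
        linarith
      rw [hwin _ h1, hz2 s hs.1]
      unfold ctl2
      rw [if_neg (not_lt.2 hs.1)]
      ring
    have hi2 : IntervalIntegrable (fun s => g (z s) + ctl2 g c d l T s) volume T t := by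
      refine (hcurve.intervalIntegrable T t).congr ?_
      rw [uIoc_of_le hTt]
      intro s hs
      exact (hval s ⟨hs.1.le, hs.2⟩).symm
    refine ⟨hi1.trans hi2, ?_⟩
    simp only
    rw [← intervalIntegral.integral_add_adjacent_intervals hi1 hi2, ← add_assoc, ← he1]
    have h3 : ∫ s in T..t, (g (z s) + ctl2 g c d l T s)
        = ∫ s in T..t, -(L * ((x T - c) * Real.exp (-(L * (s - T))))) := by
      refine intervalIntegral.integral_congr fun s hs => ?_
      rw [uIcc_of_le hTt] at hs
      exact hval s hs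
    have hder : ∀ s : ℝ, HasDerivAt (fun s => c + (x T - c) * Real.exp (-(L * (s - T))))
        (-(L * ((x T - c) * Real.exp (-(L * (s - T)))))) s := by
      intro s
      have h4 := (expCurve_hasDerivAt c (x T - c) L (s - T)).comp_sub_const s T
      exact h4
    rw [h3, intervalIntegral.integral_eq_sub_of_hasDerivAt (fun s _ => hder s)
      (hcurve.intervalIntegrable _ _), hz1 T le_rfl, hz2 t hTt]
    simp

end Pool.Agent.StabEntropy
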